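import Mathlib

/-!
# The sprawl of planar perimeters: definitions and the statements of the steps

Project MP_c499fd_gt, case `d = 2`.
-/

set_option autoImplicit false

open MeasureTheory Set Real

namespace Pool.Agent.TH993.SP

noncomputable section

/-- the plane -/
abbrev E2 := EuclideanSpace ℝ (Fin 2)

/-- the sprawl of the boundary of `K` -/
def Espr (K : Set E2) : ℝ :=
  (∫ x in K, ∫ y in K, gauge K ((gauge K x)⁻¹ • x - (gauge K y)⁻¹ • y)) /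
    ((MeasureTheory.volume K).toReal ^ 2)

/-- symmetric convex bodies in the plane -/
def Body (K : Set E2) : Prop :=
  Convex ℝ K ∧ IsCompact K ∧ (interior K).Nonempty ∧ (∀ x ∈ K, -x ∈ K)

/-- the square -/
def sq : Set E2 := {x : E2 | ∀ i : Fin 2, |EuclideanSpace.proj (𝕜 := ℝ) i x| ≤ 1}

/-- the point with given coordinates -/
def toE (p : ℝ × ℝ) : E2 := !₂[p.1, p.2]

/-- the unit vector with angle `θ` -/
def uv (θ : ℝ) : ℝ × ℝ := (Real.cos θ, Real.sin θ)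

/-- the determinant -/
def wd (u v : ℝ × ℝ) : ℝ := u.1 * v.2 - u.2 * v.1

/-- norms on the plane -/
structure IsN (N : ℝ × ℝ → ℝ) : Prop where
  add : ∀ u v, N (u + v) ≤ N u + N v
  smul : ∀ (r : ℝ) (u : ℝ × ℝ), N (r • u) = |r| * N u
  pos : ∀ u, u ≠ 0 → 0 < N u
  cont : Continuous N

/-- the norm of `K` in coordinates -/
def gN (K : Set E2) (p : ℝ × ℝ) : ℝ := gauge K (toE p)

/-- the point of the unit circle with angle `θ` -/
def pt (N : ℝ × ℝ → ℝ) (θ : ℝ) : ℝ × ℝ := (N (uv θ))⁻¹ • uv θ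

/-- twice the density of the area -/
def rd (N : ℝ × ℝ → ℝ) (θ : ℝ) : ℝ := ((N (uv θ)) ^ 2)⁻¹

/-- the sprawl in polar coordinates -/
def EN (N : ℝ × ℝ → ℝ) : ℝ :=
  (∫ θ in (-π)..π, (∫ φ in (-π)..π, N (pt N θ - pt N φ) * rd N φ) * rd N θ) /
    (∫ θ in (-π)..π, rd N θ) ^ 2

/-- the unit circle of `N`, parametrised by twice the area -/
structure Par (N : ℝ × ℝ → ℝ) (T : ℝ) (X : ℝ → ℝ × ℝ) : Prop where
  T_pos : 0 < T
  cont : Continuous X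
  anti : ∀ a, X (a + T) = - X a
  one : ∀ a, N (X a) = 1
  A1 : ∀ a b v, a ≤ b → wd v (X b - X a) ≤ (b - a) * N v
  A2 : ∀ ε, 0 < ε → ∃ η, 0 < η ∧ ∀ a b, a < b → b < a + η → (1 - ε) * (b - a) ≤ wd (X a) (X b)
  A3 : ∀ a b, a < b → b < a + T → 0 < wd (X a) (X b)

/-- POL: polar coordinates -/
def S_POL : Prop := ∀ K : Set E2, Body K → IsN (gN K) ∧ Espr K = EN (gN K)

/-- PARAM: the parametrisation by the area -/
def S_PARAM : Prop := ∀ N : ℝ × ℝ → ℝ, IsN N → ∃ (T : ℝ) (X : ℝ → ℝ × ℝ), Par N T X ∧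
  EN N = (∫ a in (0 : ℝ)..(2 * T), ∫ b in (0 : ℝ)..(2 * T), N (X a - X b)) / (2 * T) ^ 2

/-- FRZ: the discrete inequality -/
def S_FRZ : Prop := ∀ (n m : ℕ) (x : ℕ → ℝ × ℝ) (δ : ℝ), 2 ≤ n → n = 2 * m → 0 < δ →
  (∀ i, x (i + n) = - x i) → (∀ i j, i < j → j < i + n → 0 < wd (x i) (x j)) →
  (∀ i, δ ≤ wd (x i) (x (i + 1))) →
  (n : ℝ) * (δ / Real.sin (π / n)) ≤ ∑ i ∈ Finset.range n, wd (x i) (x (i + m))

/-- AREA: the mean area of the inscribed parallelograms -/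
def S_AREA : Prop := ∀ (N : ℝ × ℝ → ℝ) (T : ℝ) (X : ℝ → ℝ × ℝ), IsN N → Par N T X →
  2 * T ^ 2 / π ≤ ∫ c in (0 : ℝ)..(2 * T), wd (X c) (X (c + T / 2))

/-- INT: the lower bound for the sprawl by the mean area -/
def S_INT : Prop := ∀ (N : ℝ × ℝ → ℝ) (T : ℝ) (X : ℝ → ℝ × ℝ), IsN N → Par N T X →
  8 * ∫ c in (0 : ℝ)..(2 * T), wd (X c) (X (c + T / 2)) ≤
    ∫ a in (0 : ℝ)..(2 * T), ∫ b in (0 : ℝ)..(2 * T), N (X a - X b)

/-- CONC: linear functionals are concave on half of the circle -/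
def S_CONC : Prop := ∀ (N : ℝ × ℝ → ℝ) (T : ℝ) (X : ℝ → ℝ × ℝ), IsN N → Par N T X → ∀ c : ℝ,
  (∀ a ∈ Icc c (c + T), 0 ≤ wd (X c) (X a)) ∧
  ConcaveOn ℝ (Icc c (c + T)) (fun a => wd (X c) (X a))

/-- MAX: the inequality for one functional -/
def S_MAX : Prop := ∀ (T c : ℝ) (f : ℝ → ℝ), 0 < T → Continuous f → (∀ a, f (a + T) = - f a) →
  (∀ a ∈ Icc c (c + T), 0 ≤ f a) → ConcaveOn ℝ (Icc c (c + T)) f →
  ∫ a in (0 : ℝ)..(2 * T), ∫ b in (0 : ℝ)..(2 * T), |f a - f b| ≤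
    (4 / 3) * (2 * T) * ∫ a in (0 : ℝ)..(2 * T), |f a|

/-- POLY: every norm is bounded by the norm of an inscribed polygon, a sum of functionals -/
def S_POLY : Prop := ∀ (N : ℝ × ℝ → ℝ) (T : ℝ) (X : ℝ → ℝ × ℝ), IsN N → Par N T X →
  ∀ ε : ℝ, 0 < ε → ε < 1 → ∃ (n : ℕ) (c : ℕ → ℝ) (κ : ℕ → ℝ), (∀ i, 0 ≤ κ i) ∧
    (∀ v, N v ≤ ∑ i ∈ Finset.range n, κ i * |wd v (X (c i))|) ∧
    ∀ a, ∑ i ∈ Finset.range n, κ i * |wd (X a) (X (c i))| ≤ (1 - ε)⁻¹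

/-- the Euclidean norm -/
def Nb (p : ℝ × ℝ) : ℝ := Real.sqrt (p.1 ^ 2 + p.2 ^ 2)

/-- the norm of the square -/
def Ns (p : ℝ × ℝ) : ℝ := max |p.1| |p.2|

/-- BALL: the circle -/
def S_BALL : Prop := EN Nb = 4 / π

/-- SQ: the square -/
def S_SQ : Prop := EN Ns = 4 / 3

/-- GN: the norms of the ball and of the square, and the bodies of the norms -/
def S_GN : Prop := Body (Metric.closedBall (0 : E2) 1) ∧ Body sq ∧
  gN (Metric.closedBall (0 : E2) 1) = Nb ∧ gN sq = Ns ∧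
  ∀ N : ℝ × ℝ → ℝ, IsN N → ∃ K : Set E2, Body K ∧ gN K = N

/-- PATH: continuity of the sprawl on a segment -/
def S_PATH : Prop := ∀ N0 N1 : ℝ × ℝ → ℝ, IsN N0 → IsN N1 →
  ContinuousOn (fun t : ℝ => EN (fun p => (1 - t) * N0 p + t * N1 p)) (Icc 0 1) ∧
  ∀ t ∈ Icc (0 : ℝ) 1, IsN (fun p => (1 - t) * N0 p + t * N1 p)

end

end Pool.Agent.TH993.SP
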