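import Mathlib
import Pool.Agent.TH993.SP.Defs

set_option autoImplicit false

open MeasureTheory Set Real

namespace Pool.Agent.TH993.SP

noncomputable section

theorem upper (hM : S_MAX) (hC : S_CONC) (hP : S_POLY) (N : ℝ × ℝ → ℝ) (T : ℝ)
    (X : ℝ → ℝ × ℝ) (hN : IsN N) (hX : Par N T X) :
    ∫ a in (0 : ℝ)..(2 * T), ∫ b in (0 : ℝ)..(2 * T), N (X a - X b) ≤ 4 / 3 * (2 * T) ^ 2 := by
  have hT := hX.T_pos
  have hT2 : (0 : ℝ) ≤ 2 * T := by linarith
  have hXc := hX.cont
  have hNc := hN.cont
  -- one functional
  have key : ∀ c : ℝ, ∫ a in (0 : ℝ)..(2 * T), ∫ b in (0 : ℝ)..(2 * T), |wd (X a - X b) (X c)| ≤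
      (4 / 3) * (2 * T) * ∫ a in (0 : ℝ)..(2 * T), |wd (X a) (X c)| := by
    intro c
    obtain ⟨h1, h2⟩ := hC N T X hN hX c
    have h3 := hM T c (fun a => wd (X c) (X a)) hT (by unfold wd; fun_prop)
      (by
        intro a
        simp only [hX.anti, wd, Prod.fst_neg, Prod.snd_neg]
        ring) h1 h2
    have e1 : ∀ a b, |wd (X a - X b) (X c)| = |wd (X c) (X a) - wd (X c) (X b)| := by
      intro a b
      rw [← abs_neg]
      congr 1
      simp only [wd, Prod.fst_sub, Prod.snd_sub]
      ring
    have e2 : ∀ a, |wd (X a) (X c)| = |wd (X c) (X a)| := by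
      intro a
      rw [← abs_neg]
      congr 1
      simp only [wd]
      ring
    simp only [e1, e2]
    exact h3
  have main : ∀ ε : ℝ, 0 < ε → ε < 1 →
      ∫ a in (0 : ℝ)..(2 * T), ∫ b in (0 : ℝ)..(2 * T), N (X a - X b) ≤
        (1 - ε)⁻¹ * (4 / 3 * (2 * T) ^ 2) := by
    intro ε h0 h1
    obtain ⟨n, c, κ, hκ, hv, hb⟩ := hP N T X hN hX ε h0 h1
    have hcc : ∀ i, Continuous (fun p : ℝ × ℝ => κ i * |wd (X p.1 - X p.2) (X (c i))|) := by
      intro i
      unfold wd
      fun_prop
    calc ∫ a in (0 : ℝ)..(2 * T), ∫ b in (0 : ℝ)..(2 * T), N (X a - X b)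
        ≤ ∫ a in (0 : ℝ)..(2 * T), ∫ b in (0 : ℝ)..(2 * T),
          ∑ i ∈ Finset.range n, κ i * |wd (X a - X b) (X (c i))| := by
          apply intervalIntegral.integral_mono_on hT2
          · apply Continuous.intervalIntegrable
            apply intervalIntegral.continuous_parametric_intervalIntegral_of_continuous'
            show Continuous fun p : ℝ × ℝ => N (X p.1 - X p.2)
            fun_prop
          · apply Continuous.intervalIntegrable
            apply intervalIntegral.continuous_parametric_intervalIntegral_of_continuous'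
            show Continuous fun p : ℝ × ℝ =>
              ∑ i ∈ Finset.range n, κ i * |wd (X p.1 - X p.2) (X (c i))|
            exact continuous_finsetSum _ fun i _ => hcc i
          · intro a _
            apply intervalIntegral.integral_mono_on hT2
            · apply Continuous.intervalIntegrable
              fun_prop
            · apply Continuous.intervalIntegrable
              unfold wd
              fun_prop
            · intro b _
              exact hv _
      _ = ∑ i ∈ Finset.range n, κ i * ∫ a in (0 : ℝ)..(2 * T), ∫ b in (0 : ℝ)..(2 * T),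
          |wd (X a - X b) (X (c i))| := by
          have e1 : ∀ a, ∫ b in (0 : ℝ)..(2 * T),
              ∑ i ∈ Finset.range n, κ i * |wd (X a - X b) (X (c i))| =
              ∑ i ∈ Finset.range n, κ i * ∫ b in (0 : ℝ)..(2 * T),
                |wd (X a - X b) (X (c i))| := by
            intro a
            rw [intervalIntegral.integral_finsetSum]
            · simp only [intervalIntegral.integral_const_mul]
            · intro i _
              apply Continuous.intervalIntegrable
              unfold wd
              fun_prop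
          simp only [e1]
          rw [intervalIntegral.integral_finsetSum]
          · simp only [intervalIntegral.integral_const_mul]
          · intro i _
            apply Continuous.intervalIntegrable
            apply Continuous.mul continuous_const
            apply intervalIntegral.continuous_parametric_intervalIntegral_of_continuous'
            show Continuous fun p : ℝ × ℝ => |wd (X p.1 - X p.2) (X (c i))|
            unfold wd
            fun_prop
      _ ≤ ∑ i ∈ Finset.range n, κ i * ((4 / 3) * (2 * T) *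
          ∫ a in (0 : ℝ)..(2 * T), |wd (X a) (X (c i))|) := by
          apply Finset.sum_le_sum
          intro i _
          exact mul_le_mul_of_nonneg_left (key (c i)) (hκ i)
      _ = (4 / 3) * (2 * T) * ∫ a in (0 : ℝ)..(2 * T),
          ∑ i ∈ Finset.range n, κ i * |wd (X a) (X (c i))| := by
          rw [intervalIntegral.integral_finsetSum]
          · simp only [intervalIntegral.integral_const_mul]
            rw [Finset.mul_sum]
            apply Finset.sum_congr rfl
            intro i _
            ring
          · intro i _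
            apply Continuous.intervalIntegrable
            unfold wd
            fun_prop
      _ ≤ (4 / 3) * (2 * T) * ∫ _a in (0 : ℝ)..(2 * T), (1 - ε)⁻¹ := by
          apply mul_le_mul_of_nonneg_left _ (by positivity)
          apply intervalIntegral.integral_mono_on hT2
          · apply Continuous.intervalIntegrable
            unfold wd
            fun_prop
          · exact intervalIntegrable_const
          · intro a _
            exact hb a
      _ = (1 - ε)⁻¹ * (4 / 3 * (2 * T) ^ 2) := by
          rw [intervalIntegral.integral_const, smul_eq_mul]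
          ring
  -- limit
  have hlim : Filter.Tendsto (fun ε : ℝ => (1 - ε)⁻¹ * (4 / 3 * (2 * T) ^ 2))
      (nhdsWithin 0 (Ioi 0)) (nhds ((1 - 0)⁻¹ * (4 / 3 * (2 * T) ^ 2))) := by
    apply Filter.Tendsto.mul_const
    apply Filter.Tendsto.inv₀
    · exact (tendsto_const_nhds.sub Filter.tendsto_id).mono_left nhdsWithin_le_nhds
    · norm_num
  have h2 := ge_of_tendsto hlim (Filter.mem_of_superset (Ioo_mem_nhdsGT one_pos)
    (fun ε hε => main ε hε.1 hε.2))
  simpa using h2

theorem bounds (hPar : S_PARAM) (hM : S_MAX) (hC : S_CONC) (hP : S_POLY) (hA : S_AREA)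
    (hI : S_INT) (N : ℝ × ℝ → ℝ) (hN : IsN N) : 4 / π ≤ EN N ∧ EN N ≤ 4 / 3 := by
  obtain ⟨T, X, hX, hE⟩ := hPar N hN
  have hT := hX.T_pos
  have h4 : (0 : ℝ) < (2 * T) ^ 2 := by positivity
  have hpi := Real.pi_pos
  rw [hE]
  constructor
  · rw [le_div_iff₀ h4]
    have h1 := hA N T X hN hX
    have h2 := hI N T X hN hX
    have h3 : 4 / π * (2 * T) ^ 2 = 8 * (2 * T ^ 2 / π) := by
      field_simp
      ring
    rw [h3]
    linarith
  · rw [div_le_iff₀ h4]
    exact upper hM hC hP N T X hN hX

theorem main (hPol : S_POL) (hPar : S_PARAM) (hM : S_MAX) (hC : S_CONC) (hP : S_POLY)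
    (hA : S_AREA) (hI : S_INT) (hb : S_BALL) (hs : S_SQ) (hG : S_GN) (hpath : S_PATH) :
    {e : ℝ | ∃ K : Set E2, Convex ℝ K ∧ IsCompact K ∧ (interior K).Nonempty ∧
      (∀ x ∈ K, -x ∈ K) ∧ e = Espr K} =
      Icc (Espr (Metric.closedBall (0 : E2) 1)) (Espr sq) := by
  obtain ⟨g1, g2, g3, g4, g5⟩ := hG
  have e1 : Espr (Metric.closedBall (0 : E2) 1) = 4 / π := by
    rw [(hPol _ g1).2, g3, hb]
  have e2 : Espr sq = 4 / 3 := by
    rw [(hPol _ g2).2, g4, hs]
  have n1 : IsN Nb := g3 ▸ (hPol _ g1).1
  have n2 : IsN Ns := g4 ▸ (hPol _ g2).1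
  rw [e1, e2]
  ext e
  constructor
  · rintro ⟨K, h1, h2, h3, h4, rfl⟩
    obtain ⟨h5, h6⟩ := hPol K ⟨h1, h2, h3, h4⟩
    rw [h6]
    exact bounds hPar hM hC hP hA hI _ h5
  · intro he
    obtain ⟨hc, hn⟩ := hpath Nb Ns n1 n2
    have h0 : EN (fun p => (1 - (0 : ℝ)) * Nb p + 0 * Ns p) = 4 / π := by
      rw [← hb]
      congr 1
      funext p
      ring
    have h1 : EN (fun p => (1 - (1 : ℝ)) * Nb p + 1 * Ns p) = 4 / 3 := by
      rw [← hs]
      congr 1
      funext p
      ring
    have h2 := intermediate_value_Icc (zero_le_one : (0 : ℝ) ≤ 1) hc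
    simp only [h0, h1] at h2
    obtain ⟨t, ht, h3⟩ := h2 he
    obtain ⟨K, hK, hKN⟩ := g5 _ (hn t ht)
    refine ⟨K, hK.1, hK.2.1, hK.2.2.1, hK.2.2.2, ?_⟩
    rw [(hPol K hK).2, hKN]
    exact h3.symm

end

end Pool.Agent.TH993.SP
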